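import Pool.Agent.Run7.h209.PE.Fam
import Pool.Agent.Run7.h784.JP.AllE
import Pool.Agent.Run7.h957.JP.JS0

/-!
# The joint law of the 2-Selmer groups (project JPL of helper784), packaged
-/

set_option autoImplicit false
set_option linter.all false

open Polynomial IsDedekindDomain Filter
open scoped Classical Topology

namespace Run7.h209.PE

open Run7.h784.TG (Fm)
open Run7.h784.JP
open Run7.h286.PL
open Run7.h286.SelDef

theorem fJFINM : P_JFINM :=
  aJFINM (Run7.h957.JP.T_JS0 aJLAST2 Run7.h784.TG.aCLSU (aEXS aEXI)) aNTM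

variable {k : Type} [Field k] [Finite k] {ι : Type} [Fintype ι] [Nonempty ι] {g N : ι → ℕ}
  {r : ι → k[X]} {f : ι → k[X][X]}

theorem mem_tw {u : k} {m : ℕ} {D : k[X]} (hD : D ∈ TwJ g f u m) (i : ι) :
    D ∈ Twu (g i) (f i) u m := ⟨hD.1, hD.2.1, hD.2.2.1, hD.2.2.2 i⟩

/-- All joint moments. -/
theorem jmean (h : JF g N r f) (K : Type) [Field K] [Algebra k[X] K] [IsFractionRing k[X] K]
    {u : k} (hu : u ≠ 0) (φ : (ι → ℕ) → ℝ) (hφ : ∃ C y : ℝ, ∀ d, |φ d| ≤ C * y ^ (∑ i, d i)) :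
    Tendsto (fun m => (∑ᶠ D ∈ TwJ g f u m,
        φ (fun i => selmerRank k (((f i).scaleRoots D).map (algebraMap k[X] K)))) /
      ((TwJ g f u m).ncard : ℝ)) atTop (𝓝 (∑' d : ι → ℕ, φ d * ∏ i, (wt (d i) / ∑' j, wt j))) := by
  refine (mean_twJ fJFINM h K hu φ hφ).congr fun m => ?_
  congr 1
  refine finsum_mem_congr rfl fun D hD => ?_
  congr 1
  funext i
  rw [(Run7.h286.SelDef.one_tw (h.fm i) K hu (mem_tw hD i)).1]

/-- The joint law. -/
theorem jlaw (h : JF g N r f) (K : Type) [Field K] [Algebra k[X] K] [IsFractionRing k[X] K]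
    {u : k} (hu : u ≠ 0) (d : ι → ℕ) :
    Tendsto (fun m => (({D ∈ TwJ g f u m |
        ∀ i, selmerRank k (((f i).scaleRoots D).map (algebraMap k[X] K)) = d i} : Set k[X]).ncard : ℝ) /
      ((TwJ g f u m).ncard : ℝ)) atTop (𝓝 (∏ i, (wt (d i) / ∑' j, wt j))) := by
  have h1 := jmean h K hu (fun e => if e = d then 1 else 0) ⟨1, 1, fun e => by
    rw [one_pow, mul_one]
    split_ifs <;> simp⟩
  rw [tsum_eq_single d (by
    intro e he
    rw [if_neg he, zero_mul]), if_pos rfl, one_mul] at h1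
  refine h1.congr fun m => ?_
  have hfin := twJ_fin h hu m
  congr 1
  have h2 : ({D ∈ TwJ g f u m |
      ∀ i, selmerRank k (((f i).scaleRoots D).map (algebraMap k[X] K)) = d i} : Set k[X]) =
      ((hfin.toFinset.filter fun D =>
        (fun i => selmerRank k (((f i).scaleRoots D).map (algebraMap k[X] K))) = d : Finset k[X]) :
          Set k[X]) := by
    ext D
    rw [Finset.mem_coe, Finset.mem_filter, Set.Finite.mem_toFinset, Set.mem_setOf_eq,
      funext_iff]
  rw [h2, Set.ncard_coe_finset, finsum_mem_eq_finite_toFinset_sum _ hfin, Finset.card_filter]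
  push_cast
  rfl

end Run7.h209.PE
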