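import Pool.Agent.Run7.h209.PE.Fam
import Pool.Agent.Run7.h160.PL.NUM
import Pool.Agent.Y164.NZ.Trf0
import Pool.Agent.Y665.NZ.NF
import Pool.Agent.Y785.NZ.Uni

/-!
# Twists over number fields: trivial 2-Selmer groups modulo a prime
-/

set_option autoImplicit false
set_option linter.all false

open Polynomial NumberField IsDedekindDomain Filter
open scoped Classical Topology

namespace Run7.h209.PE

open Pool.Agent.Y713.Jac (J)
open Pool.Agent.N352.Sha (UniquelyDivisible ShaTrivial)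
open Run7.h286.SelDef (Meaning selmerRank Selmer)
open Run7.h286.PL (Twu wt)
open Pool.Agent.Y164.HG (tw)
open Pool.Agent.Y164.NZ (Dif)

/-- The image of `f` under a homomorphism of the coefficients. -/
noncomputable def image {A B : Type} [CommRing A] [CommRing B] (r : A →+* B) (f : A[X][X]) :
    B[X][X] := f.map (mapRingHom r)

theorem discriminant_image {A B : Type} [CommRing A] [CommRing B] (r : A →+* B) (g : ℕ)
    (f : A[X][X]) : discriminant g (image r f) = (discriminant g f).map r := by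
  unfold discriminant image
  rw [derivative_map, resultant_map_map]
  rfl

theorem coeff_image {A B : Type} [CommRing A] [CommRing B] (r : A →+* B) (f : A[X][X]) (j : ℕ) :
    (image r f).coeff j = (f.coeff j).map r := by
  unfold image
  rw [coeff_map]
  rfl

theorem atInfinity_image {A B : Type} [CommRing A] [CommRing B] (r : A →+* B) (g M : ℕ)
    (f : A[X][X]) : atInfinity g M (image r f) = (atInfinity g M f).map r := by
  ext i
  rw [coeff_map, coeff_atInfinity, coeff_atInfinity, coeff_image, coeff_map]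
  split_ifs
  · rw [map_one]
  · rfl
  · rw [map_zero]

theorem image_comp {A B C' : Type} [CommRing A] [CommRing B] [CommRing C'] (r : A →+* B)
    (s : B →+* C') (f : A[X][X]) : image s (image r f) = image (s.comp r) f := by
  unfold image
  rw [Polynomial.map_map]
  congr 1
  ext x <;> simp

theorem HasHeight.image {A B : Type} [CommRing A] [CommRing B] [Nontrivial B] (r : A →+* B)
    {g M : ℕ} {f : A[X][X]} (h : HasHeight g M f) : HasHeight g M (image r f) := by
  refine ⟨h.monic.map _, ?_, ?_, fun j hj => ?_⟩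
  · unfold PE.image
    rw [h.monic.natDegree_map, h.degree]
  · rw [coeff_image, h.trace, Polynomial.map_zero]
  · rw [coeff_image]
    exact natDegree_map_le.trans (h.height j hj)

/-- The `D` prime to the discriminant whose twist has no 2-part. -/
def GoodSet {F : Type} [Field F] (g : ℕ) (f : F[X][X]) : Set F[X] :=
  {D | Squarefree D ∧ IsCoprime D (discriminant g f) ∧
    UniquelyDivisible 2 (J 2 (twist (RatFunc F) f D) (RatFunc F)) ∧
    ShaTrivial 2 (twist (RatFunc F) f D) F[X]}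

/-- The number of all twists over a large field. -/
theorem many {F : Type} [Field F] [Finite F] {Q : F[X]} (hQ : Q ≠ 0)
    (hq : 8 * (Q.natDegree + 1) ≤ Nat.card F) (m : ℕ) :
    (Nat.card F) ^ m ≤ 2 * {D : F[X] | D.leadingCoeff = 1 ∧ D.natDegree = m ∧ Squarefree D ∧
      IsCoprime D Q}.ncard := by
  haveI : Fintype F := Fintype.ofFinite F
  have hD : Dif ![Q, 0] = Q := by
    unfold Dif
    rw [Finset.prod_eq_single ((0, 1) : Fin 2 × Fin 2)]
    · simp
    · intro x hx hne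
      rw [Finset.mem_filter] at hx
      exfalso
      apply hne
      obtain ⟨i, j⟩ := x
      have := hx.2
      simp only at this
      fin_cases i <;> fin_cases j <;> simp_all
    · intro h
      exact absurd (Finset.mem_filter.2 ⟨Finset.mem_univ _, by decide⟩) h
  have h := Pool.Agent.Y785.NZ.Uni.t F 2 ![Q, 0] (by
    intro i j hij
    fin_cases i <;> fin_cases j
    · exact absurd rfl hij
    · exact hQ
    · exact fun h => hQ h.symm
    · exact absurd rfl hij) (by
    rw [hD, ← Nat.card_eq_fintype_card]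
    exact hq) m
  rw [← Nat.card_eq_fintype_card] at h
  refine h.trans (le_of_eq ?_)
  congr 2
  ext D
  constructor
  · rintro ⟨h1, h2, h3, h4⟩
    refine ⟨h1, h2, h3, ?_⟩
    have h5 := h4 0 1 (by decide)
    simpa using h5
  · rintro ⟨h1, h2, h3, h4⟩
    refine ⟨h1, h2, h3, fun i j hij => ?_⟩
    fin_cases i <;> fin_cases j
    · exact absurd rfl hij
    · simpa using h4
    · simpa using h4.neg_right
    · exact absurd rfl hij

theorem limit_big : (1 : ℝ) / 5 < wt 0 / ∑' i, wt i := by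
  obtain ⟨-, -, -, h5, -⟩ := Run7.h160.PL.num
  rw [abs_lt] at h5
  have h6 : wt 0 = 1 := by simp [wt]
  rw [h6]
  exact one_div_lt_one_div_of_lt (by linarith [h5.1]) (by linarith [h5.2])

/-- The count over one finite field. -/
theorem field_count {F : Type} [Field F] [Finite F] (h2 : (2 : F) ≠ 0) {g N : ℕ} (hg : 1 ≤ g)
    (hN : 1 ≤ N) {f : F[X][X]} (hf : InFamily g N f)
    (hq : 8 * ((discriminant g f).natDegree + 1) ≤ Nat.card F) :
    ∀ᶠ m : ℕ in atTop, (1 / 10 : ℝ) * (Nat.card F : ℝ) ^ m ≤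
      (({E : F[X] | E.Monic ∧ E.natDegree = m ∧ E ∈ GoodSet g f}).ncard : ℝ) := by
  have hF := hf.fm hg hN h2
  have h1 := (law hF (RatFunc F) (one_ne_zero (α := F)) 0).eventually (lt_mem_nhds limit_big)
  filter_upwards [h1] with m hm
  have h3 := many hf.squarefree.ne_zero hq m
  have h3' : (Nat.card F : ℝ) ^ m ≤ 2 * ((Twu g f 1 m).ncard : ℝ) := by exact_mod_cast h3
  have hpos : (0 : ℝ) < ((Twu g f 1 m).ncard : ℝ) := by
    have h4 : (0 : ℝ) < (Nat.card F : ℝ) := by exact_mod_cast Nat.card_pos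
    have h5 : (0 : ℝ) < (Nat.card F : ℝ) ^ m := by positivity
    linarith
  rw [lt_div_iff₀ hpos] at hm
  have h6 : (1 / 10 : ℝ) * (Nat.card F : ℝ) ^ m ≤ (({D ∈ Twu g f 1 m |
      selmerRank F ((f.scaleRoots D).map (algebraMap F[X] (RatFunc F))) = 0} : Set F[X]).ncard :
        ℝ) := by linarith
  refine h6.trans ?_
  norm_cast
  apply Set.ncard_le_ncard
  · rintro D ⟨hD, hD0⟩
    obtain ⟨-, hM⟩ := Run7.h286.SelDef.one_tw hF (RatFunc F) (one_ne_zero (α := F)) hD
    have hc : Nat.card (Selmer F ((f.scaleRoots D).map (algebraMap F[X] (RatFunc F)))) = 1 := by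
      rw [hM.order, hD0, pow_zero]
    exact ⟨hD.1, hD.2.1, hD.2.2.1, hD.2.2.2, hM.divisible hc, hM.sha hc⟩
  · obtain ⟨-, hfin⟩ := Pool.Agent.Y188.NZ.card_monic F m
    have h6 : ({p : F[X] | p.Monic ∧ p.natDegree = m}).Finite := hfin
    exact h6.subset fun E hE => ⟨hE.1, hE.2.1⟩

section nf

variable {A k : Type} [Field A] [NumberField A] [Field k] [NumberField k] [Algebra A k]

/-- The prime `P` of `A` is the restriction of a prime of `k` of relative degree one, and `r` is
irreducible modulo `P`. -/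
def IsInert (k : Type) [Field k] [NumberField k] [Algebra A k] (r : (𝓞 A)[X])
    (P : HeightOneSpectrum (𝓞 A)) : Prop :=
  Irreducible (r.map (Ideal.Quotient.mk P.asIdeal)) ∧
    ∃ ρ : 𝓞 k →+* 𝓞 A ⧸ P.asIdeal, ρ.comp (algebraMap (𝓞 A) (𝓞 k)) = Ideal.Quotient.mk P.asIdeal

/-- There is a reduction `r` onto a finite field `F` of odd characteristic such that the reduction of `f`
is in the family, the reduction of `D` is squarefree and prime to the discriminant of the reduction of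
`f`, and for the Jacobian `J` over `F(t)` of the reduction of `D y ^ 2 = f(x)` the group `J(F(t))` is
uniquely divisible by two and the 2-primary part of the Tate-Shafarevich group is zero. -/
def IsGoodModuloPrime {B : Type} [CommRing B] (g N : ℕ) (f : B[X][X]) (D : B[X]) : Prop :=
  ∃ (F : Type) (_ : Field F) (_ : Finite F) (r : B →+* F), Function.Surjective r ∧ (2 : F) ≠ 0 ∧
    InFamily g N (image r f) ∧ D.map r ∈ GoodSet g (image r f)

theorem main {g N : ℕ} (hg : 1 ≤ g) (hN : 1 ≤ N) {f : (𝓞 A)[X][X]} (hf : HasHeight g (2 * N) f)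
    (hs : Squarefree ((discriminant g f).map (algebraMap (𝓞 A) A)))
    (hZ : {P | IsInert k (atInfinity g (2 * N) f) P}.Infinite) {η : ℝ} (hη : 0 < η) :
    ∃ M : Ideal (𝓞 A), M ≠ ⊥ ∧ ∀ᶠ m : ℕ in atTop,
      (1 - η) * (Nat.card (𝓞 A ⧸ M) : ℝ) ^ m ≤
        (({E : (𝓞 A ⧸ M)[X] | E.Monic ∧ E.natDegree = m ∧ ∀ D : (𝓞 A)[X], D.Monic →
          D.map (Ideal.Quotient.mk M) = E →
            IsGoodModuloPrime g N (image (algebraMap (𝓞 A) (𝓞 k)) f)
              (D.map (algebraMap (𝓞 A) (𝓞 k)))}).ncard : ℝ) := by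
  obtain ⟨c, A', B', hc0, hAB⟩ := Pool.Agent.Y665.NZ.bezout hs
  obtain ⟨X', hX'⟩ : ∃ X' : ℕ, X' = 8 * ((discriminant g f).natDegree + 1) := ⟨_, rfl⟩
  have hbad : ({P : HeightOneSpectrum (𝓞 A) | (2 : 𝓞 A) ∈ P.asIdeal} ∪
      {P : HeightOneSpectrum (𝓞 A) | c ∈ P.asIdeal} ∪
      {P : HeightOneSpectrum (𝓞 A) | Ideal.absNorm P.asIdeal ≤ X'}).Finite :=
    ((Pool.Agent.Y665.NZ.fin_mem two_ne_zero).union (Pool.Agent.Y665.NZ.fin_mem hc0)).union
      (Pool.Agent.Y665.NZ.fin_norm X')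
  have hG : ∀ P ∈ {P | IsInert k (atInfinity g (2 * N) f) P} \
      ({P : HeightOneSpectrum (𝓞 A) | (2 : 𝓞 A) ∈ P.asIdeal} ∪
      {P : HeightOneSpectrum (𝓞 A) | c ∈ P.asIdeal} ∪
      {P : HeightOneSpectrum (𝓞 A) | Ideal.absNorm P.asIdeal ≤ X'}),
      ∀ᶠ m : ℕ in atTop, m ∈ (Set.univ : Set ℕ) → (1 / 10 : ℝ) * (Nat.card (𝓞 A ⧸ P.asIdeal) : ℝ) ^ m ≤
      (({E : (𝓞 A ⧸ P.asIdeal)[X] | E.Monic ∧ E.natDegree = m ∧ E ∈
        {E : (𝓞 A ⧸ P.asIdeal)[X] | ∀ D : (𝓞 A)[X], D.Monic →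
          D.map (Ideal.Quotient.mk P.asIdeal) = E → IsGoodModuloPrime g N
            (image (algebraMap (𝓞 A) (𝓞 k)) f) (D.map (algebraMap (𝓞 A) (𝓞 k)))}}).ncard : ℝ) := by
    rintro P ⟨⟨hirr, ρ, hρ⟩, hP⟩
    simp only [Set.mem_union, Set.mem_setOf_eq, not_or] at hP
    obtain ⟨⟨h2, hc⟩, hX⟩ := hP
    haveI := P.isMaximal
    letI : Field (𝓞 A ⧸ P.asIdeal) := Ideal.Quotient.field _
    haveI : Finite (𝓞 A ⧸ P.asIdeal) := Ideal.finiteQuotientOfFreeOfNeBot P.asIdeal P.ne_bot
    have htwo : (2 : 𝓞 A ⧸ P.asIdeal) ≠ 0 := by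
      have h7 : Ideal.Quotient.mk P.asIdeal (2 : 𝓞 A) ≠ 0 := by
        rw [Ne, Ideal.Quotient.eq_zero_iff_mem]
        exact h2
      have h8 : Ideal.Quotient.mk P.asIdeal (2 : 𝓞 A) = 2 := map_ofNat _ 2
      rw [h8] at h7
      exact h7
    have hfam : InFamily g N (image (Ideal.Quotient.mk P.asIdeal) f) := by
      refine ⟨hf.image _, ?_, ?_⟩
      · rw [atInfinity_image]
        exact hirr
      · rw [discriminant_image]
        exact Pool.Agent.Y665.NZ.sqf_red hAB P hc
    have hq : 8 * ((discriminant g (image (Ideal.Quotient.mk P.asIdeal) f)).natDegree + 1) ≤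
        Nat.card (𝓞 A ⧸ P.asIdeal) := by
      have e : Nat.card (𝓞 A ⧸ P.asIdeal) = Ideal.absNorm P.asIdeal := rfl
      rw [discriminant_image, e]
      have : ((discriminant g f).map (Ideal.Quotient.mk P.asIdeal)).natDegree ≤
          (discriminant g f).natDegree := natDegree_map_le
      omega
    have hρs : Function.Surjective ρ := by
      intro y
      obtain ⟨x, rfl⟩ := Ideal.Quotient.mk_surjective y
      exact ⟨algebraMap (𝓞 A) (𝓞 k) x, by rw [← hρ]; rfl⟩
    have hρf : image ρ (image (algebraMap (𝓞 A) (𝓞 k)) f) =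
        image (Ideal.Quotient.mk P.asIdeal) f := by
      rw [image_comp, hρ]
    filter_upwards [field_count htwo hg hN hfam hq] with m hm _
    refine hm.trans ?_
    norm_cast
    apply Set.ncard_le_ncard
    · rintro E ⟨hE1, hE2, hE3⟩
      refine ⟨hE1, hE2, fun D hD hDE => ⟨𝓞 A ⧸ P.asIdeal, inferInstance, inferInstance, ρ, hρs,
        htwo, ?_, ?_⟩⟩
      · rw [hρf]
        exact hfam
      · rw [hρf, Polynomial.map_map, hρ, hDE]
        exact hE3
    · obtain ⟨-, hfin⟩ := Pool.Agent.Y188.NZ.card_monic (𝓞 A ⧸ P.asIdeal) m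
      have h6 : ({p : (𝓞 A ⧸ P.asIdeal)[X] | p.Monic ∧ p.natDegree = m}).Finite := hfin
      exact h6.subset fun E hE => ⟨hE.1, hE.2.1⟩
  obtain ⟨M, hM, h⟩ := Pool.Agent.Y164.NZ.transfer0 _ (hZ.diff hbad) Set.univ
    (fun P => {E : (𝓞 A ⧸ P.asIdeal)[X] | ∀ D : (𝓞 A)[X], D.Monic →
      D.map (Ideal.Quotient.mk P.asIdeal) = E → IsGoodModuloPrime g N
        (image (algebraMap (𝓞 A) (𝓞 k)) f) (D.map (algebraMap (𝓞 A) (𝓞 k)))})
    (c := 1 / 10) (by norm_num) hG η hη
  refine ⟨M, hM, ?_⟩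
  filter_upwards [h] with m hm
  refine (hm (Set.mem_univ m)).trans ?_
  norm_cast
  apply Set.ncard_le_ncard
  · rintro E ⟨hE1, hE2, p, -, -, hE3⟩
    exact ⟨hE1, hE2, fun D hD hDE => hE3 D hDE D hD rfl⟩
  · haveI : Finite (𝓞 A ⧸ M) := Ideal.finiteQuotientOfFreeOfNeBot _ hM
    rcases subsingleton_or_nontrivial (𝓞 A ⧸ M) with hsub | hnt
    · exact Set.toFinite _
    · obtain ⟨-, hfin⟩ := Pool.Agent.Y188.NZ.card_monic (𝓞 A ⧸ M) m
      have h6 : ({p : (𝓞 A ⧸ M)[X] | p.Monic ∧ p.natDegree = m}).Finite := hfin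
      exact h6.subset fun E hE => ⟨hE.1, hE.2.1⟩

end nf

end Run7.h209.PE
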