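import Pool.Agent.Run7.h209.PE.Tw

/-!
# The families of hyperelliptic curves over `k(t)`: public definitions
-/

set_option autoImplicit false
set_option linter.all false

open Polynomial
open scoped Classical

namespace Run7.h209.PE

section defs

variable {k : Type} [CommRing k]

/-- The discriminant of the monic polynomial `f` of degree `2 g + 1` in `x` over `k[t]`, up to the
sign: the resultant of `f` and its derivative. -/
noncomputable def discriminant (g : ℕ) (f : k[X][X]) : k[X] :=
  f.resultant (derivative f) (2 * g + 1) (2 * g)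

/-- `f = x ^ (2 g + 1) + f_{2 g - 1} x ^ (2 g - 1) + ... + f_0` with `deg f_j ≤ M (2 g + 1 - j)`. -/
structure HasHeight (g M : ℕ) (f : k[X][X]) : Prop where
  monic : f.Monic
  degree : f.natDegree = 2 * g + 1
  trace : f.coeff (2 * g) = 0
  height : ∀ j ≤ 2 * g, (f.coeff j).natDegree ≤ M * (2 * g + 1 - j)

/-- The reduction of `f` at infinity, the polynomial `x ^ (2 g + 1) + ∑ r_j x ^ j` over `k` where `r_j`
is the coefficient of `t ^ (M (2 g + 1 - j))` in `f_j`. -/
noncomputable def atInfinity (g M : ℕ) (f : k[X][X]) : k[X] :=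
  X ^ (2 * g + 1) + ∑ j ∈ Finset.range (2 * g + 1), C ((f.coeff j).coeff (M * (2 * g + 1 - j))) * X ^ j

/-- The family of curves: squarefree discriminant, irreducible reduction at infinity. -/
structure InFamily (g N : ℕ) (f : k[X][X]) : Prop extends HasHeight g (2 * N) f where
  inert : Irreducible (atInfinity g (2 * N) f)
  squarefree : Squarefree (discriminant g f)

/-- The monic equation `y ^ 2 = D ^ (2 g + 1) f(x / D)` of the quadratic twist `D y ^ 2 = f(x)` over
`K = k(t)`. -/
noncomputable def twist (K : Type) [Field K] [Algebra k[X] K] (f : k[X][X]) (D : k[X]) : K[X] :=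
  (f.scaleRoots D).map (algebraMap k[X] K)

theorem coeff_atInfinity (g M : ℕ) (f : k[X][X]) (i : ℕ) : (atInfinity g M f).coeff i =
    if i = 2 * g + 1 then 1 else if i ≤ 2 * g then (f.coeff i).coeff (M * (2 * g + 1 - i)) else 0 := by
  unfold atInfinity
  rw [coeff_add, coeff_X_pow, finset_sum_coeff]
  simp only [coeff_C_mul, coeff_X_pow]
  by_cases h1 : i = 2 * g + 1
  · rw [if_pos h1, if_pos h1, Finset.sum_eq_zero, add_zero]
    intro j hj
    rw [if_neg (by have := Finset.mem_range.1 hj; omega), mul_zero]
  · rw [if_neg h1, if_neg h1, zero_add]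
    by_cases h2 : i ≤ 2 * g
    · rw [if_pos h2, Finset.sum_eq_single i]
      · rw [if_pos rfl, mul_one]
      · intro j _ hj
        rw [if_neg (Ne.symm hj), mul_zero]
      · intro hi
        exact absurd (Finset.mem_range.2 (by omega)) hi
    · rw [if_neg h2, Finset.sum_eq_zero]
      intro j hj
      rw [if_neg (by have := Finset.mem_range.1 hj; omega), mul_zero]

end defs

theorem InFamily.fm {k : Type} [Field k] [Finite k] {g N : ℕ} {f : k[X][X]} (h : InFamily g N f)
    (hg : 1 ≤ g) (hN : 1 ≤ N) (h2 : (2 : k) ≠ 0) :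
    Run7.h784.TG.Fm g N (atInfinity g (2 * N) f) f := by
  have hd : (atInfinity g (2 * N) f).natDegree = 2 * g + 1 := by
    refine natDegree_eq_of_le_of_coeff_ne_zero (natDegree_le_iff_coeff_eq_zero.2 fun i hi => ?_) ?_
    · rw [coeff_atInfinity, if_neg (by omega), if_neg (by omega)]
    · rw [coeff_atInfinity, if_pos rfl]
      exact one_ne_zero
  refine ⟨hg, hN, h2, ⟨?_, h.inert, hd, ?_⟩, ⟨⟨h.monic, h.degree, h.trace, h.height⟩, ?_, ?_,
    h.squarefree⟩⟩
  · rw [Monic, leadingCoeff, hd, coeff_atInfinity, if_pos rfl]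
  · rw [coeff_atInfinity, if_neg (by omega), if_pos le_rfl, h.trace, coeff_zero]
  · intro j hj
    rw [coeff_atInfinity, if_neg (by omega), if_pos hj]
  · intro Q hQ
    exact absurd hQ (Finset.notMem_empty Q)

end Run7.h209.PE
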