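import Pool.Agent.Run7.h209.PE.Jnt

/-!
# The joint law of the 2-Selmer groups of the twists of several hyperelliptic Jacobians: public form
-/

set_option autoImplicit false
set_option linter.all false

namespace Run7.h209.JStat

open Polynomial Filter
open scoped Classical Topology
open Pool.Agent.Y713.Jac (J)
open Pool.Agent.N352.Sha (UniquelyDivisible ShaTrivial)
open Run7.h286.SelDef (Meaning selmerRank Selmer)
open Run7.h209.PE (InFamily discriminant twist)

/-- The limit law. -/
noncomputable def limitLaw (d : ℕ) : ℝ :=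
  (∏' j : ℕ, (1 + (1 / 2 : ℝ) ^ j))⁻¹ * ∏ i ∈ Finset.range d, (2 : ℝ) / (2 ^ (i + 1) - 1)

/-- The mean value of the limit law. -/
noncomputable def limitMean : ℝ := ∑' d : ℕ, limitLaw d * d

/-- For the Jacobian `J` of `y ^ 2 = F(x)` over `K = k(t)` the group `J(K)` is uniquely divisible by two
and the 2-primary part of the Tate-Shafarevich group is zero. -/
def NoTwoPart (k : Type) {K : Type} [Field k] [Field K] [Algebra k[X] K] [IsFractionRing k[X] K]
    (F : K[X]) : Prop :=
  UniquelyDivisible 2 (J 2 F K) ∧ ShaTrivial 2 F k[X]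

section defs

variable {k : Type} [Field k] (K : Type) [Field K] [Algebra k[X] K] [IsFractionRing k[X] K] {n : ℕ}
  (g : Fin n → ℕ) (f : Fin n → k[X][X]) (u : k)

/-- The squarefree polynomials `D` of degree `m` with leading coefficient `u` which are prime to the
discriminants of the `f_i`. -/
def Twists (m : ℕ) : Set k[X] :=
  {D | D.leadingCoeff = u ∧ D.natDegree = m ∧ Squarefree D ∧ ∀ i, IsCoprime D (discriminant (g i) (f i))}

/-- The dimensions `d_i(D)` of the 2-Selmer groups of the Jacobians of the curves `D y ^ 2 = f_i(x)`. -/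
noncomputable def dims (D : k[X]) (i : Fin n) : ℕ := selmerRank k (twist K (f i) D)

/-- The average of `Φ(D)` over the twists of degree `m` tends to `l`. -/
def AverageTendsTo (Φ : k[X] → ℝ) (l : ℝ) : Prop :=
  Tendsto (fun m : ℕ => (∑ᶠ D ∈ Twists g f u m, Φ D) / ((Twists g f u m).ncard : ℝ)) atTop (𝓝 l)

/-- The joint law of the dimensions. -/
def HasLaw : Prop :=
  ∀ d : Fin n → ℕ, Tendsto (fun m : ℕ => (({D ∈ Twists g f u m | dims K f D = d}).ncard : ℝ) /
    ((Twists g f u m).ncard : ℝ)) atTop (𝓝 (∏ i, limitLaw (d i)))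

/-- All the joint moments. -/
def HasMeans : Prop :=
  ∀ φ : (Fin n → ℕ) → ℝ, (∃ C y : ℝ, ∀ d, |φ d| ≤ C * y ^ (∑ i, d i)) →
    AverageTendsTo g f u (fun D => φ (dims K f D)) (∑' d : Fin n → ℕ, φ d * ∏ i, limitLaw (d i))

/-- For each function `w` which tends to infinity the total dimension is at most `w m` for almost all
the twists of degree `m`. -/
def AlmostAllSmall : Prop :=
  ∀ w : ℕ → ℕ, Tendsto w atTop atTop →
    Tendsto (fun m : ℕ => (({D ∈ Twists g f u m | ∑ i, dims K f D i ≤ w m}).ncard : ℝ) /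
      ((Twists g f u m).ncard : ℝ)) atTop (𝓝 1)

/-- The theorem for `f_1, ..., f_n` and the leading coefficient `u`. -/
structure Statement : Prop where
  each : ∀ m : ℕ, ∀ D ∈ Twists g f u m, ∀ i, Meaning k (twist K (f i) D)
  law : HasLaw K g f u
  means : HasMeans K g f u
  average : AverageTendsTo g f u (fun D => ∑ i, (dims K f D i : ℝ)) (n * limitMean)
  small : AlmostAllSmall K g f u
  often : ∀ᶠ m : ℕ in atTop, (0.2097 : ℝ) ^ n * ((Twists g f u m).ncard : ℝ) ≤
    (({D ∈ Twists g f u m | ∀ i, NoTwoPart k (twist K (f i) D)}).ncard : ℝ)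

end defs

open Run7.h286.PL in
theorem limit_eq (d : ℕ) : wt d / (∑' i, wt i) = limitLaw d := by
  obtain ⟨-, -, h, -⟩ := Run7.h160.PL.num
  rw [limitLaw, h.tprod_eq, div_eq_inv_mul]
  rfl

open Run7.h286.PL in
theorem mean_eq : Lw (fun d => (d : ℝ)) = limitMean := by
  rw [Lw, limitMean, div_eq_inv_mul, ← tsum_mul_left]
  congr 1
  ext d
  rw [← limit_eq, div_eq_inv_mul, mul_assoc]

theorem limit_zero : (0.2097 : ℝ) < limitLaw 0 := by
  obtain ⟨-, -, -, h5, -⟩ := Run7.h160.PL.num
  rw [← limit_eq]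
  have h6 : Run7.h286.PL.wt 0 = 1 := by simp [Run7.h286.PL.wt]
  rw [h6]
  rw [abs_lt] at h5
  refine lt_of_lt_of_le ?_ (one_div_le_one_div_of_le (a := ∑' d, Run7.h286.PL.wt d)
    (b := 4.76847) (by linarith [h5.1]) (by linarith [h5.2]))
  norm_num

theorem limit_nonneg (d : ℕ) : 0 ≤ limitLaw d := by
  rw [← limit_eq]
  obtain ⟨h1, -, -, h5, -⟩ := Run7.h160.PL.num
  rw [abs_lt] at h5
  exact div_nonneg (h1 d).le (by linarith [h5.1])

theorem sum_pow (y : ℝ) : Summable fun d => limitLaw d * y ^ d := by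
  have h := (Run7.h547.PL.qid.1 y).mul_left ((∑' i, Run7.h286.PL.wt i)⁻¹)
  refine h.congr fun d => ?_
  rw [← limit_eq, div_eq_inv_mul, mul_assoc]

theorem sum_one : ∑' d, limitLaw d = 1 := by
  obtain ⟨-, -, -, h5, -⟩ := Run7.h160.PL.num
  rw [abs_lt] at h5
  have h0 : (∑' i, Run7.h286.PL.wt i) ≠ 0 := by
    have : (0 : ℝ) < ∑' i, Run7.h286.PL.wt i := by linarith [h5.1]
    exact this.ne'
  have h1 : (fun d => limitLaw d) = fun d => (∑' i, Run7.h286.PL.wt i)⁻¹ * Run7.h286.PL.wt d := by
    funext d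
    rw [← limit_eq, div_eq_inv_mul]
  rw [h1, tsum_mul_left, inv_mul_cancel₀ h0]

/-- The marginal means of the product law. -/
theorem marginal {n : ℕ} (j : Fin n) :
    ∑' d : Fin n → ℕ, (d j : ℝ) * ∏ i, limitLaw (d i) = limitMean := by
  have h := Run7.h784.JP.tsum_pi (fun (i : Fin n) (d : ℕ) => limitLaw d * (if i = j then (d : ℝ) else 1))
    (fun i d => mul_nonneg (limit_nonneg d) (by split_ifs <;> positivity)) (fun i => by
      split_ifs with h1
      · refine Summable.of_nonneg_of_le (fun d => mul_nonneg (limit_nonneg d) (by positivity))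
          (fun d => ?_) (sum_pow 2)
        refine mul_le_mul_of_nonneg_left ?_ (limit_nonneg d)
        exact_mod_cast Nat.lt_two_pow_self.le
      · have h2 := sum_pow 1
        simpa using h2)
  have h1 : ∀ d : Fin n → ℕ, ∏ i, (limitLaw (d i) * (if i = j then ((d i : ℕ) : ℝ) else 1)) =
      (d j : ℝ) * ∏ i, limitLaw (d i) := by
    intro d
    rw [Finset.prod_mul_distrib, Finset.prod_ite_eq' Finset.univ j (fun i => ((d i : ℕ) : ℝ)),
      if_pos (Finset.mem_univ j), mul_comm]
  rw [tsum_congr h1] at h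
  rw [h, Finset.prod_eq_single j]
  · unfold limitMean
    exact tsum_congr fun d => by rw [if_pos rfl]
  · intro i _ hij
    rw [tsum_congr fun d => by rw [if_neg hij, mul_one]]
    exact sum_one
  · intro h2
    exact absurd (Finset.mem_univ j) h2

theorem main {k : Type} [Field k] [Finite k] (h2 : (2 : k) ≠ 0) (K : Type) [Field K]
    [Algebra k[X] K] [IsFractionRing k[X] K] {n : ℕ} (hn : 1 ≤ n) {g N : Fin n → ℕ}
    (hg : ∀ i, 1 ≤ g i) (hN : ∀ i, 1 ≤ N i) {f : Fin n → k[X][X]} (hf : ∀ i, InFamily (g i) (N i) (f i))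
    (hc : ∀ i j, i ≠ j → IsCoprime (discriminant (g i) (f i)) (discriminant (g j) (f j)))
    {u : k} (hu : u ≠ 0) : Statement K g f u ∧ |limitMean - 1.2645| < 0.0001 := by
  haveI : Nonempty (Fin n) := ⟨⟨0, hn⟩⟩
  have hF : Run7.h784.JP.JF g N (fun i => Run7.h209.PE.atInfinity (g i) (2 * N i) (f i)) f :=
    ⟨h2, fun i => (hf i).fm (hg i) (hN i) h2, hc⟩
  have hmeans : HasMeans K g f u := by
    intro φ hφ
    have h := Run7.h209.PE.jmean hF K hu φ hφ
    simp only [limit_eq] at h
    exact h
  have hlaw : HasLaw K g f u := by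
    intro d
    have h := Run7.h209.PE.jlaw hF K hu d
    simp only [limit_eq] at h
    refine h.congr fun m => ?_
    congr 3
    ext D
    exact and_congr_right fun _ => funext_iff.symm
  have hfin : ∀ m, (Twists g f u m).Finite := fun m => Run7.h784.JP.twJ_fin hF hu m
  have heach : ∀ m : ℕ, ∀ D ∈ Twists g f u m, ∀ i, Meaning k (twist K (f i) D) := fun m D hD i =>
    (Run7.h286.SelDef.one_tw (hF.fm i) K hu (Run7.h209.PE.mem_tw hD i)).2
  have havg : AverageTendsTo g f u (fun D => ∑ i, (dims K f D i : ℝ)) (n * limitMean) := by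
    have h1 : ∀ j : Fin n, AverageTendsTo g f u (fun D => (dims K f D j : ℝ)) limitMean := by
      intro j
      rw [← marginal j]
      refine hmeans (fun d => (d j : ℝ)) ⟨1, 2, fun d => ?_⟩
      rw [one_mul, abs_of_nonneg (by positivity)]
      have h3 : d j ≤ 2 ^ (∑ i, d i) :=
        (Nat.lt_two_pow_self (n := d j)).le.trans (Nat.pow_le_pow_right (by norm_num)
          (Finset.single_le_sum (fun _ _ => Nat.zero_le _) (Finset.mem_univ j)))
      exact_mod_cast h3
    have h3 := tendsto_finset_sum (Finset.univ : Finset (Fin n)) fun j _ => h1 j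
    have h4 : ∑ j : Fin n, limitMean = n * limitMean := by
      rw [Finset.sum_const, Finset.card_univ, Fintype.card_fin, nsmul_eq_mul]
    rw [h4] at h3
    refine h3.congr fun m => ?_
    rw [← Finset.sum_div]
    congr 1
    rw [finsum_mem_eq_finite_toFinset_sum _ (hfin m), Finset.sum_comm]
    exact Finset.sum_congr rfl fun j _ => finsum_mem_eq_finite_toFinset_sum _ (hfin m)
  have hzero := hlaw fun _ => 0
  have hpos : (0.2097 : ℝ) ^ n < ∏ i : Fin n, limitLaw ((fun _ => 0 : Fin n → ℕ) i) := by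
    rw [Finset.prod_const, Finset.card_univ, Fintype.card_fin]
    exact pow_lt_pow_left₀ limit_zero (by norm_num) (by omega)
  refine ⟨⟨heach, hlaw, hmeans, havg, ?_, ?_⟩, ?_⟩
  · intro w hw
    have hw1 : Tendsto (fun m => ((w m : ℝ) + 1)) atTop atTop :=
      tendsto_atTop_add_const_right _ _ (tendsto_natCast_atTop_atTop.comp hw)
    have h5 := havg.mul (tendsto_inv_atTop_zero.comp hw1)
    rw [mul_zero] at h5
    have h6 := (tendsto_const_nhds (x := (1 : ℝ)) (f := atTop (α := ℕ))).sub h5
    rw [sub_zero] at h6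
    refine tendsto_of_tendsto_of_tendsto_of_le_of_le' h6 tendsto_const_nhds ?_ ?_
    · filter_upwards [hzero.eventually (lt_mem_nhds hpos)] with m hm
      have h0 : (0 : ℝ) < ((Twists g f u m).ncard : ℝ) := by
        rcases Nat.eq_zero_or_pos ((Twists g f u m).ncard) with h0 | h0
        · exfalso
          rw [h0, Nat.cast_zero, div_zero] at hm
          exact absurd hm (not_lt.2 (by positivity))
        · exact_mod_cast h0
      have hw2 : (0 : ℝ) < (w m : ℝ) + 1 := by positivity
      have h7 : (({D ∈ Twists g f u m | ∑ i, dims K f D i ≤ w m}).ncard : ℝ) +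
          (({D ∈ Twists g f u m | ¬ ∑ i, dims K f D i ≤ w m}).ncard : ℝ) =
          ((Twists g f u m).ncard : ℝ) := by
        norm_cast
        rw [← Set.ncard_union_eq (Set.disjoint_left.2 fun D h1 h2 => h2.2 h1.2)
          ((hfin m).subset fun D hD => hD.1) ((hfin m).subset fun D hD => hD.1)]
        congr 1
        ext D
        constructor
        · rintro (h | h)
          · exact h.1
          · exact h.1
        · intro h
          rcases em (∑ i, dims K f D i ≤ w m) with h1 | h1
          · exact Or.inl ⟨h, h1⟩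
          · exact Or.inr ⟨h, h1⟩
      have h8 : (({D ∈ Twists g f u m | ¬ ∑ i, dims K f D i ≤ w m}).ncard : ℝ) * ((w m : ℝ) + 1) ≤
          ∑ᶠ D ∈ Twists g f u m, ∑ i, (dims K f D i : ℝ) := by
        have hfin2 : ({D ∈ Twists g f u m | ¬ ∑ i, dims K f D i ≤ w m}).Finite :=
          (hfin m).subset fun D hD => hD.1
        rw [finsum_mem_eq_finite_toFinset_sum _ (hfin m),
          Set.ncard_eq_toFinset_card _ hfin2, ← nsmul_eq_mul, ← Finset.sum_const]
        refine (Finset.sum_le_sum (f := fun _ => (w m : ℝ) + 1)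
          (g := fun D => ∑ i, (dims K f D i : ℝ)) fun D hD => ?_).trans
          (Finset.sum_le_sum_of_subset_of_nonneg ?_ fun D _ _ => by positivity)
        · have h9 := ((Set.Finite.mem_toFinset hfin2).1 hD).2
          have h10 : w m + 1 ≤ ∑ i, dims K f D i := by omega
          exact_mod_cast h10
        · intro D hD
          exact (Set.Finite.mem_toFinset _).2 ((Set.Finite.mem_toFinset hfin2).1 hD).1
      rw [le_div_iff₀ h0, sub_mul, one_mul]
      have h11 : (∑ᶠ D ∈ Twists g f u m, ∑ i, (dims K f D i : ℝ)) / ((Twists g f u m).ncard : ℝ) *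
          ((fun x : ℝ => x⁻¹) ∘ fun m => ((w m : ℝ) + 1)) m * ((Twists g f u m).ncard : ℝ) =
          (∑ᶠ D ∈ Twists g f u m, ∑ i, (dims K f D i : ℝ)) / ((w m : ℝ) + 1) := by
        simp only [Function.comp]
        field_simp
      rw [h11]
      have h12 : (({D ∈ Twists g f u m | ¬ ∑ i, dims K f D i ≤ w m}).ncard : ℝ) ≤
          (∑ᶠ D ∈ Twists g f u m, ∑ i, (dims K f D i : ℝ)) / ((w m : ℝ) + 1) := by
        rw [le_div_iff₀ hw2]
        exact h8
      linarith
    · refine Eventually.of_forall fun m => ?_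
      refine div_le_one_of_le₀ ?_ (by positivity)
      norm_cast
      exact Set.ncard_le_ncard (fun D hD => hD.1) (hfin m)
  · filter_upwards [hzero.eventually (lt_mem_nhds hpos)] with m hm
    have h5 : (({D ∈ Twists g f u m | dims K f D = fun _ => 0}).ncard : ℝ) ≤
        (({D ∈ Twists g f u m | ∀ i, NoTwoPart k (twist K (f i) D)}).ncard : ℝ) := by
      norm_cast
      refine Set.ncard_le_ncard ?_ ((hfin m).subset fun D hD => hD.1)
      rintro D ⟨hD, hD0⟩
      refine ⟨hD, fun i => ?_⟩
      have hM := heach m D hD i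
      have hc1 : Nat.card (Selmer k (twist K (f i) D)) = 1 := by
        have h6 : selmerRank k (twist K (f i) D) = 0 := congrFun hD0 i
        rw [hM.order, h6, pow_zero]
      exact ⟨hM.divisible hc1, hM.sha hc1⟩
    rcases Nat.eq_zero_or_pos ((Twists g f u m).ncard) with h0 | h0
    · rw [h0, Nat.cast_zero, mul_zero]
      positivity
    · have h0' : (0 : ℝ) < ((Twists g f u m).ncard : ℝ) := by exact_mod_cast h0
      rw [lt_div_iff₀ h0'] at hm
      linarith
  · rw [← mean_eq]
    exact Run7.h547.PL.qid.2.2.2.2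

end Run7.h209.JStat
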