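import Pool.Agent.Run7.h209.PE.NF

/-!
# Twists over number fields: several families and all fields at once
-/

set_option autoImplicit false
set_option linter.all false

open Polynomial NumberField IsDedekindDomain Filter
open scoped Classical Topology

namespace Run7.h209.PE

section count

variable {B B' : Type} [CommRing B] [CommRing B'] [Finite B] [Finite B'] [Nontrivial B]

lemma card_ker (φ : B →+* B') (hφ : Function.Surjective φ) :
    Nat.card B = Nat.card B' * ({x : B | φ x = 0}).ncard := by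
  have h1 := AddSubgroup.card_eq_card_quotient_mul_card_addSubgroup (φ : B →+ B').ker
  have h2 : Nat.card (B ⧸ (φ : B →+ B').ker) = Nat.card B' :=
    Nat.card_congr (QuotientAddGroup.quotientKerEquivOfSurjective (φ : B →+ B') hφ).toEquiv
  rw [h1, h2]
  congr 1

lemma fib (φ : B →+* B') (m : ℕ) (T : Set B'[X]) (hT : T.Finite) :
    ({E : B[X] | E.Monic ∧ E.natDegree = m ∧ E.map φ ∈ T}).ncard ≤ ({x : B | φ x = 0}).ncard ^ m * T.ncard := by
  haveI := Fintype.ofFinite B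
  obtain ⟨-, hfin⟩ := Pool.Agent.Y188.NZ.card_monic B m
  have hfin' : ({p : B[X] | p.Monic ∧ p.natDegree = m}).Finite := hfin
  have hS : ({E : B[X] | E.Monic ∧ E.natDegree = m ∧ E.map φ ∈ T}).Finite := hfin'.subset fun E hE => ⟨hE.1, hE.2.1⟩
  have hK : ({x : B | φ x = 0}).ncard = (Finset.univ.filter fun x : B => φ x = 0).card := by
    rw [← Set.ncard_coe_finset]
    congr 1
    ext x
    simp
  rw [Set.ncard_eq_toFinset_card _ hS, hK]
  have h1 := Finset.card_le_mul_card_image (f := fun E : B[X] => E.map φ) hS.toFinset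
    ((Finset.univ.filter fun x : B => φ x = 0).card ^ m) (by
    intro a ha
    obtain ⟨E₀, hE₀, rfl⟩ := Finset.mem_image.1 ha
    rw [Set.Finite.mem_toFinset] at hE₀
    have h2 : ∀ E ∈ hS.toFinset.filter (fun E => E.map φ = E₀.map φ), (fun i : Fin m => (E - E₀).coeff i) ∈
        Fintype.piFinset fun _ : Fin m => Finset.univ.filter fun x : B => φ x = 0 := by
      intro E hE
      rw [Finset.mem_filter] at hE
      rw [Fintype.mem_piFinset]
      intro i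
      rw [Finset.mem_filter]
      refine ⟨Finset.mem_univ _, ?_⟩
      have h3 : (E.map φ).coeff i = (E₀.map φ).coeff i := by rw [hE.2]
      rw [coeff_map, coeff_map] at h3
      rw [coeff_sub, map_sub, h3, sub_self]
    have h3 := Finset.card_le_card_of_injOn (fun (E : B[X]) (i : Fin m) => (E - E₀).coeff i) h2 (by
      intro E hE E' hE' h4
      rw [Finset.mem_coe, Finset.mem_filter, Set.Finite.mem_toFinset] at hE hE'
      ext n
      rcases lt_trichotomy n m with h | h | h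
      · have h5 := congrFun h4 ⟨n, h⟩
        simp only [coeff_sub] at h5
        exact sub_left_injective h5
      · have h6 := hE.1.1.coeff_natDegree
        have h7 := hE'.1.1.coeff_natDegree
        rw [hE.1.2.1] at h6
        rw [hE'.1.2.1] at h7
        rw [h, h6, h7]
      · rw [coeff_eq_zero_of_natDegree_lt (by rw [hE.1.2.1]; exact h), coeff_eq_zero_of_natDegree_lt (by rw [hE'.1.2.1]; exact h)])
    refine h3.trans (le_of_eq ?_)
    rw [Fintype.card_piFinset_const])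
  refine h1.trans (Nat.mul_le_mul_left _ ?_)
  rw [Set.ncard_eq_toFinset_card _ hT]
  refine Finset.card_le_card fun a ha => ?_
  obtain ⟨E₀, hE₀, rfl⟩ := Finset.mem_image.1 ha
  rw [Set.Finite.mem_toFinset] at hE₀ ⊢
  exact hE₀.2.2

end count

section nf

variable {A : Type} [Field A] [NumberField A]

/-- The reductions of `f` and `D` modulo the prime `P` are good. -/
def GoodAt (g N : ℕ) (f : (𝓞 A)[X][X]) (P : HeightOneSpectrum (𝓞 A)) (D : (𝓞 A)[X]) : Prop :=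
  ∃ (F : Type) (_ : Field F) (_ : Finite F) (r : 𝓞 A →+* F), Function.Surjective r ∧ RingHom.ker r = P.asIdeal ∧ (2 : F) ≠ 0 ∧
    InFamily g N (image r f) ∧ D.map r ∈ GoodSet g (image r f)

lemma GoodAt.over {g N : ℕ} {f : (𝓞 A)[X][X]} {P : HeightOneSpectrum (𝓞 A)} {D : (𝓞 A)[X]} (h : GoodAt g N f P D)
    {k : Type} [Field k] [NumberField k] [Algebra A k]
    (hk : ∃ ρ : 𝓞 k →+* 𝓞 A ⧸ P.asIdeal, ρ.comp (algebraMap (𝓞 A) (𝓞 k)) = Ideal.Quotient.mk P.asIdeal) :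
    IsGoodModuloPrime g N (image (algebraMap (𝓞 A) (𝓞 k)) f) (D.map (algebraMap (𝓞 A) (𝓞 k))) := by
  obtain ⟨F, hF1, hF2, r, hr, hker, h2, hfam, hD⟩ := h
  obtain ⟨ρ, hρ⟩ := hk
  obtain ⟨e, he⟩ : ∃ e : 𝓞 A ⧸ P.asIdeal →+* F, e.comp (Ideal.Quotient.mk P.asIdeal) = r :=
    ⟨Ideal.Quotient.lift P.asIdeal r (fun a ha => by rw [← hker] at ha; exact ha), by
      ext x
      simp⟩
  have hc : (e.comp ρ).comp (algebraMap (𝓞 A) (𝓞 k)) = r := by rw [RingHom.comp_assoc, hρ, he]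
  refine ⟨F, hF1, hF2, e.comp ρ, ?_, h2, ?_, ?_⟩
  · intro y
    obtain ⟨x, rfl⟩ := hr y
    exact ⟨algebraMap (𝓞 A) (𝓞 k) x, by rw [← hc]; rfl⟩
  · rw [image_comp, hc]
    exact hfam
  · rw [image_comp, hc, Polynomial.map_map, hc]
    exact hD

theorem mainP {g N : ℕ} (hg : 1 ≤ g) (hN : 1 ≤ N) {f : (𝓞 A)[X][X]} (hf : HasHeight g (2 * N) f)
    (hs : Squarefree ((discriminant g f).map (algebraMap (𝓞 A) A)))
    (hZ : {P : HeightOneSpectrum (𝓞 A) | Irreducible ((atInfinity g (2 * N) f).map (Ideal.Quotient.mk P.asIdeal))}.Infinite)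
    {η : ℝ} (hη : 0 < η) :
    ∃ M : Ideal (𝓞 A), M ≠ ⊥ ∧ ∀ᶠ m : ℕ in atTop,
      (1 - η) * (Nat.card (𝓞 A ⧸ M) : ℝ) ^ m ≤
        (({E : (𝓞 A ⧸ M)[X] | E.Monic ∧ E.natDegree = m ∧ ∃ P : HeightOneSpectrum (𝓞 A), M ≤ P.asIdeal ∧
          ∀ D : (𝓞 A)[X], D.Monic → D.map (Ideal.Quotient.mk M) = E → GoodAt g N f P D}).ncard : ℝ) := by
  obtain ⟨c, A', B', hc0, hAB⟩ := Pool.Agent.Y665.NZ.bezout hs
  obtain ⟨X', hX'⟩ : ∃ X' : ℕ, X' = 8 * ((discriminant g f).natDegree + 1) := ⟨_, rfl⟩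
  have hbad : ({P : HeightOneSpectrum (𝓞 A) | (2 : 𝓞 A) ∈ P.asIdeal} ∪
      {P : HeightOneSpectrum (𝓞 A) | c ∈ P.asIdeal} ∪
      {P : HeightOneSpectrum (𝓞 A) | Ideal.absNorm P.asIdeal ≤ X'}).Finite :=
    ((Pool.Agent.Y665.NZ.fin_mem two_ne_zero).union (Pool.Agent.Y665.NZ.fin_mem hc0)).union
      (Pool.Agent.Y665.NZ.fin_norm X')
  have hG : ∀ P ∈ {P : HeightOneSpectrum (𝓞 A) | Irreducible ((atInfinity g (2 * N) f).map (Ideal.Quotient.mk P.asIdeal))} \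
      ({P : HeightOneSpectrum (𝓞 A) | (2 : 𝓞 A) ∈ P.asIdeal} ∪
      {P : HeightOneSpectrum (𝓞 A) | c ∈ P.asIdeal} ∪
      {P : HeightOneSpectrum (𝓞 A) | Ideal.absNorm P.asIdeal ≤ X'}),
      ∀ᶠ m : ℕ in atTop, m ∈ (Set.univ : Set ℕ) → (1 / 10 : ℝ) * (Nat.card (𝓞 A ⧸ P.asIdeal) : ℝ) ^ m ≤
      (({E : (𝓞 A ⧸ P.asIdeal)[X] | E.Monic ∧ E.natDegree = m ∧ E ∈
        {E : (𝓞 A ⧸ P.asIdeal)[X] | ∀ D : (𝓞 A)[X], D.Monic →
          D.map (Ideal.Quotient.mk P.asIdeal) = E → GoodAt g N f P D}}).ncard : ℝ) := by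
    rintro P ⟨hirr, hP⟩
    simp only [Set.mem_union, Set.mem_setOf_eq, not_or] at hP
    obtain ⟨⟨h2, hc⟩, hX⟩ := hP
    haveI := P.isMaximal
    letI : Field (𝓞 A ⧸ P.asIdeal) := Ideal.Quotient.field _
    haveI : Finite (𝓞 A ⧸ P.asIdeal) := Ideal.finiteQuotientOfFreeOfNeBot P.asIdeal P.ne_bot
    have htwo : (2 : 𝓞 A ⧸ P.asIdeal) ≠ 0 := by
      have h7 : Ideal.Quotient.mk P.asIdeal (2 : 𝓞 A) ≠ 0 := by
        rw [Ne, Ideal.Quotient.eq_zero_iff_mem]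
        exact h2
      have h8 : Ideal.Quotient.mk P.asIdeal (2 : 𝓞 A) = 2 := map_ofNat _ 2
      rw [h8] at h7
      exact h7
    have hfam : InFamily g N (image (Ideal.Quotient.mk P.asIdeal) f) := by
      refine ⟨hf.image _, ?_, ?_⟩
      · rw [atInfinity_image]
        exact hirr
      · rw [discriminant_image]
        exact Pool.Agent.Y665.NZ.sqf_red hAB P hc
    have hq : 8 * ((discriminant g (image (Ideal.Quotient.mk P.asIdeal) f)).natDegree + 1) ≤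
        Nat.card (𝓞 A ⧸ P.asIdeal) := by
      have e : Nat.card (𝓞 A ⧸ P.asIdeal) = Ideal.absNorm P.asIdeal := rfl
      rw [discriminant_image, e]
      have : ((discriminant g f).map (Ideal.Quotient.mk P.asIdeal)).natDegree ≤
          (discriminant g f).natDegree := natDegree_map_le
      omega
    filter_upwards [field_count htwo hg hN hfam hq] with m hm _
    refine hm.trans ?_
    norm_cast
    apply Set.ncard_le_ncard
    · rintro E ⟨hE1, hE2, hE3⟩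
      refine ⟨hE1, hE2, fun D hD hDE => ⟨𝓞 A ⧸ P.asIdeal, inferInstance, inferInstance, Ideal.Quotient.mk P.asIdeal,
        Ideal.Quotient.mk_surjective, Ideal.mk_ker, htwo, hfam, ?_⟩⟩
      rw [hDE]
      exact hE3
    · obtain ⟨-, hfin⟩ := Pool.Agent.Y188.NZ.card_monic (𝓞 A ⧸ P.asIdeal) m
      have h6 : ({p : (𝓞 A ⧸ P.asIdeal)[X] | p.Monic ∧ p.natDegree = m}).Finite := hfin
      exact h6.subset fun E hE => ⟨hE.1, hE.2.1⟩
  obtain ⟨M, hM, h⟩ := Pool.Agent.Y164.NZ.transfer0 _ (hZ.diff hbad) Set.univ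
    (fun P => {E : (𝓞 A ⧸ P.asIdeal)[X] | ∀ D : (𝓞 A)[X], D.Monic →
      D.map (Ideal.Quotient.mk P.asIdeal) = E → GoodAt g N f P D})
    (c := 1 / 10) (by norm_num) hG η hη
  refine ⟨M, hM, ?_⟩
  filter_upwards [h] with m hm
  refine (hm (Set.mem_univ m)).trans ?_
  norm_cast
  apply Set.ncard_le_ncard
  · rintro E ⟨hE1, hE2, p, -, hMp, hE3⟩
    exact ⟨hE1, hE2, p, hMp, fun D hD hDE => hE3 D hDE D hD rfl⟩
  · haveI : Finite (𝓞 A ⧸ M) := Ideal.finiteQuotientOfFreeOfNeBot _ hM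
    rcases subsingleton_or_nontrivial (𝓞 A ⧸ M) with hsub | hnt
    · exact Set.toFinite _
    · obtain ⟨-, hfin⟩ := Pool.Agent.Y188.NZ.card_monic (𝓞 A ⧸ M) m
      have h6 : ({p : (𝓞 A ⧸ M)[X] | p.Monic ∧ p.natDegree = m}).Finite := hfin
      exact h6.subset fun E hE => ⟨hE.1, hE.2.1⟩

/-- **Several families, all fields at once.** -/
theorem mainAll {ι : Type} [Fintype ι] [Nonempty ι] {g N : ι → ℕ} (hg : ∀ i, 1 ≤ g i) (hN : ∀ i, 1 ≤ N i)
    {f : ι → (𝓞 A)[X][X]} (hf : ∀ i, HasHeight (g i) (2 * N i) (f i))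
    (hs : ∀ i, Squarefree ((discriminant (g i) (f i)).map (algebraMap (𝓞 A) A)))
    (hZ : ∀ i, {P : HeightOneSpectrum (𝓞 A) |
      Irreducible ((atInfinity (g i) (2 * N i) (f i)).map (Ideal.Quotient.mk P.asIdeal))}.Infinite)
    {η : ℝ} (hη : 0 < η) :
    ∃ M : Ideal (𝓞 A), M ≠ ⊥ ∧ ∀ᶠ m : ℕ in atTop,
      (1 - η) * (Nat.card (𝓞 A ⧸ M) : ℝ) ^ m ≤
        (({E : (𝓞 A ⧸ M)[X] | E.Monic ∧ E.natDegree = m ∧ ∀ i, ∃ P : HeightOneSpectrum (𝓞 A), M ≤ P.asIdeal ∧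
          ∀ D : (𝓞 A)[X], D.Monic → D.map (Ideal.Quotient.mk M) = E → GoodAt (g i) (N i) (f i) P D}).ncard : ℝ) := by
  obtain ⟨η', hη'⟩ : ∃ η' : ℝ, η' = min η (1 / 2) / Fintype.card ι := ⟨_, rfl⟩
  have hcard : (0 : ℝ) < Fintype.card ι := by exact_mod_cast Fintype.card_pos
  have hcard1 : (1 : ℝ) ≤ Fintype.card ι := by exact_mod_cast Fintype.card_pos
  have hη0 : 0 < η' := by rw [hη']; exact div_pos (lt_min hη (by norm_num)) hcard
  have hη1 : η' < 1 := by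
    rw [hη', div_lt_one hcard]
    exact lt_of_le_of_lt (min_le_right _ _) (by linarith)
  have hηs : Fintype.card ι * η' ≤ η := by
    rw [hη', mul_div_cancel₀ _ hcard.ne']
    exact min_le_left _ _
  choose Mi hMi hev using fun i => mainP (hg i) (hN i) (hf i) (hs i) (hZ i) hη0
  obtain ⟨M, hM⟩ : ∃ M : Ideal (𝓞 A), M = ∏ i, Mi i := ⟨_, rfl⟩
  have hM0 : M ≠ ⊥ := by
    rw [hM, ← Ideal.zero_eq_bot]
    exact Finset.prod_ne_zero_iff.2 fun i _ => by rw [Ideal.zero_eq_bot]; exact hMi i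
  have hle : ∀ i, M ≤ Mi i := fun i => by
    rw [hM]
    exact Ideal.prod_le_inf.trans (Finset.inf_le (Finset.mem_univ i))
  refine ⟨M, hM0, ?_⟩
  have hfinM : Finite (𝓞 A ⧸ M) := Ideal.finiteQuotientOfFreeOfNeBot _ hM0
  have hfini : ∀ i, Finite (𝓞 A ⧸ Mi i) := fun i => Ideal.finiteQuotientOfFreeOfNeBot _ (hMi i)
  filter_upwards [eventually_all.2 hev, eventually_ge_atTop 1] with m hm hm1
  -- the quotients are not trivial
  have hnti : ∀ i, Nontrivial (𝓞 A ⧸ Mi i) := by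
    intro i
    by_contra hn
    rw [not_nontrivial_iff_subsingleton] at hn
    have h1 := hm i
    have h2 : {E : (𝓞 A ⧸ Mi i)[X] | E.Monic ∧ E.natDegree = m ∧ ∃ P : HeightOneSpectrum (𝓞 A), Mi i ≤ P.asIdeal ∧
          ∀ D : (𝓞 A)[X], D.Monic → D.map (Ideal.Quotient.mk (Mi i)) = E → GoodAt (g i) (N i) (f i) P D} = ∅ := by
      ext E
      simp only [Set.mem_setOf_eq, Set.mem_empty_iff_false, iff_false]
      rintro ⟨-, h3, -⟩
      have : E = 0 := Subsingleton.elim _ _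
      rw [this, natDegree_zero] at h3
      omega
    rw [h2, Set.ncard_empty, Nat.card_of_subsingleton (0 : 𝓞 A ⧸ Mi i)] at h1
    simp only [Nat.cast_one, one_pow, mul_one, Nat.cast_zero] at h1
    linarith
  obtain ⟨i₀⟩ := (inferInstance : Nonempty ι)
  have hntM : Nontrivial (𝓞 A ⧸ M) := by
    haveI := hnti i₀
    exact (Ideal.Quotient.factor (hle i₀)).domain_nontrivial
  -- the bad classes
  obtain ⟨-, hfinm⟩ := Pool.Agent.Y188.NZ.card_monic (𝓞 A ⧸ M) m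
  have hfinm' : ({p : (𝓞 A ⧸ M)[X] | p.Monic ∧ p.natDegree = m}).Finite := hfinm
  have hcardM := (Pool.Agent.Y188.NZ.card_monic (𝓞 A ⧸ M) m).1
  obtain ⟨Bad, hBad⟩ : ∃ Bad : ∀ i, Set (𝓞 A ⧸ Mi i)[X], Bad = fun i => {E | E.Monic ∧ E.natDegree = m ∧
      ¬ ∃ P : HeightOneSpectrum (𝓞 A), Mi i ≤ P.asIdeal ∧ ∀ D : (𝓞 A)[X], D.Monic → D.map (Ideal.Quotient.mk (Mi i)) = E →
        GoodAt (g i) (N i) (f i) P D} := ⟨_, rfl⟩
  have hBadfin : ∀ i, (Bad i).Finite := by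
    intro i
    haveI := hnti i
    obtain ⟨-, hfin⟩ := Pool.Agent.Y188.NZ.card_monic (𝓞 A ⧸ Mi i) m
    have h6 : ({p : (𝓞 A ⧸ Mi i)[X] | p.Monic ∧ p.natDegree = m}).Finite := hfin
    rw [hBad]
    exact h6.subset fun E hE => ⟨hE.1, hE.2.1⟩
  have hBadcard : ∀ i, ((Bad i).ncard : ℝ) ≤ η' * (Nat.card (𝓞 A ⧸ Mi i) : ℝ) ^ m := by
    intro i
    haveI := hnti i
    have h1 := hm i
    obtain ⟨h3, hfin⟩ := Pool.Agent.Y188.NZ.card_monic (𝓞 A ⧸ Mi i) m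
    have h6 : ({p : (𝓞 A ⧸ Mi i)[X] | p.Monic ∧ p.natDegree = m}).Finite := hfin
    have h7 : ({p : (𝓞 A ⧸ Mi i)[X] | p.Monic ∧ p.natDegree = m}).ncard = Nat.card (𝓞 A ⧸ Mi i) ^ m := h3
    have h8 : {p : (𝓞 A ⧸ Mi i)[X] | p.Monic ∧ p.natDegree = m} =
        {E : (𝓞 A ⧸ Mi i)[X] | E.Monic ∧ E.natDegree = m ∧ ∃ P : HeightOneSpectrum (𝓞 A), Mi i ≤ P.asIdeal ∧
          ∀ D : (𝓞 A)[X], D.Monic → D.map (Ideal.Quotient.mk (Mi i)) = E → GoodAt (g i) (N i) (f i) P D} ∪ Bad i := by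
      rw [hBad]
      ext E
      constructor
      · rintro ⟨a, b⟩
        by_cases c : (∃ P : HeightOneSpectrum (𝓞 A), Mi i ≤ P.asIdeal ∧ ∀ D : (𝓞 A)[X], D.Monic →
            D.map (Ideal.Quotient.mk (Mi i)) = E → GoodAt (g i) (N i) (f i) P D)
        · exact Or.inl ⟨a, b, c⟩
        · exact Or.inr ⟨a, b, c⟩
      · rintro (⟨a, b, -⟩ | ⟨a, b, -⟩)
        · exact ⟨a, b⟩
        · exact ⟨a, b⟩
    have h9 : Disjoint {E : (𝓞 A ⧸ Mi i)[X] | E.Monic ∧ E.natDegree = m ∧ ∃ P : HeightOneSpectrum (𝓞 A), Mi i ≤ P.asIdeal ∧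
          ∀ D : (𝓞 A)[X], D.Monic → D.map (Ideal.Quotient.mk (Mi i)) = E → GoodAt (g i) (N i) (f i) P D} (Bad i) := by
      rw [hBad, Set.disjoint_left]
      rintro E hE hE'
      exact hE'.2.2 hE.2.2
    have h10 := Set.ncard_union_eq h9 (h6.subset fun E hE => ⟨hE.1, hE.2.1⟩) (hBadfin i)
    rw [← h8, h7] at h10
    have h11 : ((Nat.card (𝓞 A ⧸ Mi i) : ℝ)) ^ m = (({E : (𝓞 A ⧸ Mi i)[X] | E.Monic ∧ E.natDegree = m ∧ ∃ P : HeightOneSpectrum (𝓞 A), Mi i ≤ P.asIdeal ∧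
          ∀ D : (𝓞 A)[X], D.Monic → D.map (Ideal.Quotient.mk (Mi i)) = E → GoodAt (g i) (N i) (f i) P D}).ncard : ℝ) + ((Bad i).ncard : ℝ) := by
      exact_mod_cast h10
    linarith
  -- everything
  obtain ⟨Gd, hGd⟩ : ∃ Gd : Set (𝓞 A ⧸ M)[X], Gd = {E | E.Monic ∧ E.natDegree = m ∧ ∀ i, ∃ P : HeightOneSpectrum (𝓞 A), M ≤ P.asIdeal ∧
          ∀ D : (𝓞 A)[X], D.Monic → D.map (Ideal.Quotient.mk M) = E → GoodAt (g i) (N i) (f i) P D} := ⟨_, rfl⟩
  rw [← hGd]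
  have hcov : {p : (𝓞 A ⧸ M)[X] | p.Monic ∧ p.natDegree = m} ⊆ Gd ∪ ⋃ i ∈ (Finset.univ : Finset ι),
      {E : (𝓞 A ⧸ M)[X] | E.Monic ∧ E.natDegree = m ∧ E.map (Ideal.Quotient.factor (hle i)) ∈ Bad i} := by
    rintro E ⟨hE1, hE2⟩
    by_cases hall : ∀ i, E.map (Ideal.Quotient.factor (hle i)) ∉ Bad i
    · left
      rw [hGd]
      refine ⟨hE1, hE2, fun i => ?_⟩
      have h1 := hall i
      rw [hBad] at h1
      simp only [Set.mem_setOf_eq, not_and, not_not] at h1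
      haveI := hnti i
      obtain ⟨P, hP, h3⟩ := h1 (hE1.map _) (by rw [hE1.natDegree_map, hE2])
      refine ⟨P, (hle i).trans hP, fun D hD hDE => h3 D hD ?_⟩
      rw [← hDE, Polynomial.map_map]
      congr 1
    · right
      push Not at hall
      obtain ⟨i, hi⟩ := hall
      exact Set.mem_biUnion (Finset.mem_univ i) ⟨hE1, hE2, hi⟩
  have hfinU : ∀ i, ({E : (𝓞 A ⧸ M)[X] | E.Monic ∧ E.natDegree = m ∧ E.map (Ideal.Quotient.factor (hle i)) ∈ Bad i}).Finite :=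
    fun i => hfinm'.subset fun E hE => ⟨hE.1, hE.2.1⟩
  have hGdfin : Gd.Finite := by
    rw [hGd]
    exact hfinm'.subset fun E hE => ⟨hE.1, hE.2.1⟩
  have h1 : ({p : (𝓞 A ⧸ M)[X] | p.Monic ∧ p.natDegree = m}).ncard ≤ Gd.ncard + ∑ i : ι,
      ({E : (𝓞 A ⧸ M)[X] | E.Monic ∧ E.natDegree = m ∧ E.map (Ideal.Quotient.factor (hle i)) ∈ Bad i}).ncard := by
    refine (Set.ncard_le_ncard hcov (hGdfin.union (Set.Finite.biUnion (Finset.finite_toSet _) fun i _ => hfinU i))).trans ?_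
    refine (Set.ncard_union_le _ _).trans (Nat.add_le_add_left ?_ _)
    exact Finset.set_ncard_biUnion_le _ _
  have h2 : ∀ i, (({E : (𝓞 A ⧸ M)[X] | E.Monic ∧ E.natDegree = m ∧ E.map (Ideal.Quotient.factor (hle i)) ∈ Bad i}).ncard : ℝ) ≤
      η' * (Nat.card (𝓞 A ⧸ M) : ℝ) ^ m := by
    intro i
    have h3 := fib (Ideal.Quotient.factor (hle i)) m (Bad i) (hBadfin i)
    have h4 := card_ker (Ideal.Quotient.factor (hle i)) (Ideal.Quotient.factor_surjective (hle i))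
    rw [h4]
    push_cast
    rw [mul_pow]
    have h5 := hBadcard i
    have h6 : (({E : (𝓞 A ⧸ M)[X] | E.Monic ∧ E.natDegree = m ∧ E.map (Ideal.Quotient.factor (hle i)) ∈ Bad i}).ncard : ℝ) ≤
        ((({x : 𝓞 A ⧸ M | Ideal.Quotient.factor (hle i) x = 0}).ncard : ℝ) ^ m * ((Bad i).ncard : ℝ)) := by
      exact_mod_cast h3
    refine h6.trans ?_
    calc _ ≤ (({x : 𝓞 A ⧸ M | Ideal.Quotient.factor (hle i) x = 0}).ncard : ℝ) ^ m * (η' * (Nat.card (𝓞 A ⧸ Mi i) : ℝ) ^ m) :=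
          mul_le_mul_of_nonneg_left h5 (by positivity)
      _ = _ := by ring
  have h3 : (Nat.card (𝓞 A ⧸ M) : ℝ) ^ m ≤ Gd.ncard + ∑ i : ι, η' * (Nat.card (𝓞 A ⧸ M) : ℝ) ^ m := by
    have h4 : ({p : (𝓞 A ⧸ M)[X] | p.Monic ∧ p.natDegree = m}).ncard = Nat.card (𝓞 A ⧸ M) ^ m := hcardM
    rw [h4] at h1
    have h5 : (Nat.card (𝓞 A ⧸ M) : ℝ) ^ m ≤ Gd.ncard + ∑ i : ι,
      (({E : (𝓞 A ⧸ M)[X] | E.Monic ∧ E.natDegree = m ∧ E.map (Ideal.Quotient.factor (hle i)) ∈ Bad i}).ncard : ℝ) := by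
      exact_mod_cast h1
    refine h5.trans (add_le_add_right (Finset.sum_le_sum fun i _ => h2 i) _)
  rw [Finset.sum_const, Finset.card_univ, nsmul_eq_mul, ← mul_assoc] at h3
  have h6 : (0 : ℝ) ≤ (Nat.card (𝓞 A ⧸ M) : ℝ) ^ m := by positivity
  nlinarith

end nf

end Run7.h209.PE
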