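import Pool.Agent.Run7.h286.PL.AllM
import Pool.Agent.Run7.h286.PL.SelDef

/-!
# The exact law of the 2-Selmer groups (project PRL of helper286), packaged for one family of twists
-/

set_option autoImplicit false
set_option linter.all false

open Polynomial IsDedekindDomain Filter
open scoped Classical Topology

namespace Run7.h209.PE

open Run7.h784.TG (Fm)
open Run7.h286.PL
open Run7.h286.SelDef

variable {k : Type} [Field k] [Finite k] {g N : ℕ} {r : k[X]} {f : k[X][X]}

/-- The law. -/
theorem law (hf : Fm g N r f) (K : Type) [Field K] [Algebra k[X] K] [IsFractionRing k[X] K]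
    {u : k} (hu : u ≠ 0) (d : ℕ) :
    Tendsto (fun m => (({D ∈ Twu g f u m |
        selmerRank k ((f.scaleRoots D).map (algebraMap k[X] K)) = d} : Set k[X]).ncard : ℝ) /
      ((Twu g f u m).ncard : ℝ)) atTop (𝓝 (wt d / ∑' i, wt i)) := by
  refine (prop_tw fINL hf K hu d).congr fun m => ?_
  have h : ({D ∈ Twu g f u m | rkJ K (f.scaleRoots D) = d} : Set k[X]) =
      {D ∈ Twu g f u m | selmerRank k ((f.scaleRoots D).map (algebraMap k[X] K)) = d} := by
    ext D
    refine and_congr_right fun hD => ?_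
    rw [(Run7.h286.SelDef.one_tw hf K hu hD).1]
  rw [h]

/-- The moments. -/
theorem mean (hf : Fm g N r f) (K : Type) [Field K] [Algebra k[X] K] [IsFractionRing k[X] K]
    {u : k} (hu : u ≠ 0) (φ : ℕ → ℝ) (hφ : ∃ C y : ℝ, ∀ d, |φ d| ≤ C * y ^ d) :
    Tendsto (fun m => (∑ᶠ D ∈ Twu g f u m,
        φ (selmerRank k ((f.scaleRoots D).map (algebraMap k[X] K)))) / ((Twu g f u m).ncard : ℝ))
      atTop (𝓝 (Lw φ)) := by
  refine (mean_tw fMOM hf K hu φ hφ).congr fun m => ?_
  congr 1
  refine finsum_mem_congr rfl fun D hD => ?_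
  rw [(Run7.h286.SelDef.one_tw hf K hu hD).1]

end Run7.h209.PE
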